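import Pool.Agent.Lib.ALLY.Defs
import Pool.Agent.Lib.ALLE_h70.Deriv

/-!
# The derivation `d/dz` of the henselization of a rational frame
-/

set_option autoImplicit false

open Polynomial

namespace Pool.Agent.ALLY

open Pool.Agent.TAO (OVal VPos Ctx0 CtxR)

universe u w

section Ext

variable {k Ω : Type u} [Field k] [Field Ω] [Algebra k Ω]

/-- For `z` transcendental over `K₀` there is a field `L ∋ z` separably closed in `Ω`, and a
`K₀`-derivation `δ` of `L` with `δ z = 1`. -/
theorem exists_derivation_of_transcendental (K₀ : IntermediateField k Ω) {z : Ω}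
    (hz : Transcendental K₀ z) :
    ∃ (L : IntermediateField k Ω) (δ : Derivation k L L), K₀ ≤ L ∧ z ∈ L ∧
      (∀ e : L, (e : Ω) ∈ K₀ → δ e = 0) ∧ (∀ e : L, (e : Ω) = z → δ e = 1) ∧
      ∀ (P : Polynomial Ω), (∀ i, P.coeff i ∈ L) → ∀ a, P.eval a = 0 →
        (derivative P).eval a ≠ 0 → a ∈ L := by
  let E : IntermediateField K₀ Ω := IntermediateField.adjoin K₀ {z}
  let Ls : IntermediateField E Ω := separableClosure E Ω
  have hzE : z ∈ E := IntermediateField.mem_adjoin_simple_self K₀ z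
  let zE : E := ⟨z, hzE⟩
  -- `K₀[X] → E` is the field of fractions
  let _ : Algebra K₀[X] E := (aeval (R := K₀) zE).toRingHom.toAlgebra
  have hmapE : ∀ p : K₀[X], ((algebraMap K₀[X] E p : E) : Ω) = aeval z p := by
    intro p
    show ((aeval (R := K₀) zE p : E) : Ω) = _
    exact (aeval_algHom_apply E.val zE p).symm
  have hinj : Function.Injective (algebraMap K₀[X] E) := by
    rw [injective_iff_map_eq_zero]
    intro p hp
    have h1 := congrArg (fun e : E => (e : Ω)) hp
    simp only [hmapE] at h1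
    by_contra h0
    exact hz ⟨p, h0, h1⟩
  have _ : FaithfulSMul K₀[X] E := (faithfulSMul_iff_algebraMap_injective _ _).2 hinj
  have hfrac : IsFractionRing K₀[X] E := by
    refine IsFractionRing.of_field K₀[X] E fun e => ?_
    obtain ⟨p, q, hpq⟩ := (IntermediateField.mem_adjoin_simple_iff K₀ _).1 e.2
    refine ⟨p, q, Subtype.ext ?_⟩
    rw [IntermediateField.coe_div, hmapE, hmapE]
    exact hpq
  have hlocE : Algebra.FormallyEtale K₀[X] E :=
    Algebra.FormallyEtale.of_isLocalization (nonZeroDivisors K₀[X])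
  have hsepE : Algebra.FormallyEtale E Ls := Algebra.FormallyEtale.of_isSeparable E Ls
  let _ : Algebra K₀[X] Ls := ((algebraMap E Ls).comp (algebraMap K₀[X] E)).toAlgebra
  let _ : Module K₀[X] Ls := Algebra.toModule
  have _ : IsScalarTower K₀[X] E Ls := IsScalarTower.of_algebraMap_eq' rfl
  have het : Algebra.FormallyEtale K₀[X] Ls := Algebra.FormallyEtale.comp K₀[X] E Ls
  have _ : IsScalarTower K₀ K₀[X] Ls := IsScalarTower.of_algebraMap_eq fun c => by
    refine Subtype.ext ?_
    show ((algebraMap K₀ Ls c : Ls) : Ω) = (((algebraMap K₀[X] E (C c) : E)) : Ω)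
    rw [hmapE, aeval_C]
    rfl
  obtain ⟨d', hd'⟩ := ALLE.exists_derivation_extension (k := K₀) (A := K₀[X]) (B := Ls)
    (M := Ls) (Polynomial.mkDerivation K₀ (1 : Ls))
  let L : IntermediateField k Ω := (Ls.restrictScalars K₀).restrictScalars k
  have hL : ∀ a : Ω, a ∈ L ↔ a ∈ Ls := fun a => Iff.rfl
  let δ : Derivation k L L :=
    { toFun := fun e => ⟨(d' ⟨e, e.2⟩ : Ls), (d' ⟨e, e.2⟩ : Ls).2⟩
      map_add' := fun x y => by
        refine Subtype.ext ?_
        have := congrArg (fun e : Ls => (e : Ω)) (d'.map_add ⟨x, x.2⟩ ⟨y, y.2⟩)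
        exact this
      map_smul' := fun c x => by
        refine Subtype.ext ?_
        have h1 := congrArg (fun e : Ls => (e : Ω))
          (d'.map_smul (algebraMap k K₀ c) (⟨x, x.2⟩ : Ls))
        have h2 : ((⟨((c • x : L) : Ω), (c • x : L).2⟩ : Ls)) =
            algebraMap k K₀ c • (⟨x, x.2⟩ : Ls) := by
          refine Subtype.ext ?_
          show c • (x : Ω) = (algebraMap k K₀ c) • (x : Ω)
          rw [algebraMap_smul]
        have h3 : (((algebraMap k K₀ c • (d' ⟨x, x.2⟩ : Ls) : Ls)) : Ω) =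
            c • ((d' ⟨x, x.2⟩ : Ls) : Ω) := by
          show (algebraMap k K₀ c) • ((d' ⟨x, x.2⟩ : Ls) : Ω) = _
          rw [algebraMap_smul]
        rw [← h2] at h1
        exact h1.trans h3
      map_one_eq_zero' := by
        refine Subtype.ext ?_
        have := congrArg (fun e : Ls => (e : Ω)) (d'.map_one_eq_zero)
        exact this
      leibniz' := fun x y => by
        refine Subtype.ext ?_
        have := congrArg (fun e : Ls => (e : Ω)) (d'.leibniz ⟨x, x.2⟩ ⟨y, y.2⟩)
        exact this }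
  refine ⟨L, δ, ?_, ?_, ?_, ?_, ?_⟩
  · intro c hc
    exact (algebraMap K₀ Ls ⟨c, hc⟩).2
  · exact (algebraMap E Ls zE).2
  · intro e he
    refine Subtype.ext ?_
    have := congrArg (fun e : Ls => (e : Ω)) (d'.map_algebraMap (⟨e, he⟩ : K₀))
    exact this
  · intro e he
    refine Subtype.ext ?_
    have h1 := congrArg (fun e : Ls => (e : Ω)) (hd' X)
    rw [Polynomial.mkDerivation_X] at h1
    have h2 : algebraMap K₀[X] Ls X = (⟨(e : Ω), e.2⟩ : Ls) := by
      refine Subtype.ext ?_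
      show (((algebraMap K₀[X] E X : E)) : Ω) = (e : Ω)
      rw [hmapE, aeval_X, he]
    rw [h2] at h1
    exact h1
  · intro P hP a ha ha'
    have hP0 : P ≠ 0 := by
      rintro rfl
      rw [derivative_zero, eval_zero] at ha'
      exact ha' rfl
    have hlift : ∃ P₁ : Polynomial Ls, P₁.map (algebraMap Ls Ω) = P := by
      have : P ∈ Polynomial.lifts (algebraMap Ls Ω) := by
        rw [Polynomial.lifts_iff_coeff_lifts]
        intro i
        exact ⟨⟨_, hP i⟩, rfl⟩
      exact this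
    obtain ⟨P₁, hP₁⟩ := hlift
    have hP₁0 : P₁ ≠ 0 := by
      rintro rfl
      rw [Polynomial.map_zero] at hP₁
      exact hP0 hP₁.symm
    have hroot : aeval a P₁ = 0 := by
      rw [aeval_def, ← eval_map, hP₁, ha]
    have hint : IsIntegral Ls a := (isAlgebraic_iff_isIntegral).1 ⟨P₁, hP₁0, hroot⟩
    have hsep : IsSeparable Ls a := by
      rw [IsSeparable, Polynomial.separable_iff_derivative_ne_zero (minpoly.irreducible hint)]
      intro h0
      obtain ⟨q, hq⟩ := minpoly.dvd Ls a hroot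
      have h1 : aeval a (derivative P₁) = 0 := by
        rw [hq, derivative_mul, map_add, map_mul, map_mul, h0, minpoly.aeval, map_zero, zero_mul,
          zero_mul, add_zero]
      apply ha'
      rw [← hP₁, derivative_map, eval_map, ← aeval_def, h1]
    exact mem_separableClosure_iff.2
      (IsSeparable.of_algebra_isSeparable_of_isSeparable E hsep)

/-- The derivation of `P(a)`. -/
theorem der_eval {L : Type*} [Field L] [Algebra k L] (δ : Derivation k L L) (P : Polynomial L)
    (a : L) : δ (P.eval a) = (∑ i ∈ P.support, a ^ i * δ (P.coeff i)) +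
      (derivative P).eval a * δ a := by
  conv_lhs => rw [eval_eq_sum, Polynomial.sum]
  rw [map_sum, derivative_eval, Polynomial.sum, Finset.sum_mul, ← Finset.sum_add_distrib]
  refine Finset.sum_congr rfl fun i _ => ?_
  rw [Derivation.leibniz, Derivation.leibniz_pow]
  simp only [smul_eq_mul, nsmul_eq_mul]
  ring

end Ext

section Frames

variable {k Ω : Type u} [Field k] [Field Ω] [Algebra k Ω] {𝕂 : Type w} [Field 𝕂] [LinearOrder 𝕂]
  [IsStrictOrderedRing 𝕂] {v : OVal 𝕂 Ω} {d : ℕ}

/-- ROW D: the derivation `d/dz` on the henselization of a rational frame. -/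
theorem RD.exists_dz (S : RD k v (d + 1)) (hz : Transcendental S.low.K S.z) :
    ∃ (L : IntermediateField k Ω) (δ : Derivation k L L), (∀ f ∈ S.H, f ∈ L) ∧
      (∀ f ∈ S.low.H, f ∈ L) ∧ (∀ e : L, (e : Ω) = S.z → δ e = 1) ∧
      (∀ e : L, (e : Ω) ∈ S.low.H → δ e = 0) ∧
      ∀ e : L, (e : Ω) ∈ S.H → ((δ e : L) : Ω) ∈ S.H := by
  obtain ⟨L, δ, hKL, hzL, hK0, hz1, hroot⟩ := exists_derivation_of_transcendental S.low.K hz
  have hlowK : S.low.P ≤ S.low.K.toSubalgebra := by
    refine Algebra.adjoin_le ?_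
    rintro f (⟨γ, hγ, rfl⟩ | hf)
    · exact IntermediateField.subset_adjoin _ _ (Or.inl ⟨γ, hγ.1, rfl⟩)
    · exact IntermediateField.subset_adjoin _ _ (Or.inr hf)
  -- `L` is closed
  have hLcl : HCl v L.toSubalgebra :=
    { inv := fun a ha _ _ => L.inv_mem ha
      root := fun P _ hc a _ h0 h1 _ => hroot P hc a h0 h1 }
  have hlowHL : S.low.H ≤ L.toSubalgebra := hz_le (fun x hx => hKL (hlowK hx)) hLcl
  have hPL : S.P ≤ L.toSubalgebra := by
    refine Algebra.adjoin_le ?_
    rintro f (⟨γ, hγ, rfl⟩ | ⟨i, rfl⟩)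
    · exact hKL (IntermediateField.subset_adjoin _ _ (Or.inl ⟨γ, hγ.1, rfl⟩))
    · induction i using Fin.lastCases with
      | last => exact hzL
      | cast i => exact hKL (IntermediateField.subset_adjoin _ _ (Or.inr ⟨i, rfl⟩))
  have hHL : S.H ≤ L.toSubalgebra := hz_le hPL hLcl
  -- polynomials over `L`
  have hlift : ∀ P : Polynomial Ω, (∀ i, P.coeff i ∈ L) →
      ∃ P₁ : Polynomial L, P₁.map (algebraMap L Ω) = P := by
    intro P hP
    have : P ∈ Polynomial.lifts (algebraMap L Ω) := by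
      rw [Polynomial.lifts_iff_coeff_lifts]
      intro i
      exact ⟨⟨_, hP i⟩, rfl⟩
    exact this
  have hcoe : ∀ (P₁ : Polynomial L) (P : Polynomial Ω), P₁.map (algebraMap L Ω) = P → ∀ i,
      ((P₁.coeff i : L) : Ω) = P.coeff i := by
    rintro P₁ _ rfl i
    rw [coeff_map]; rfl
  have hev : ∀ (P₁ : Polynomial L) (a : L), ((P₁.eval a : L) : Ω) =
      (P₁.map (algebraMap L Ω)).eval (a : Ω) := by
    intro P₁ a
    rw [eval_map, ← coe_aeval_eq_eval]
    exact (aeval_algHom_apply (IsScalarTower.toAlgHom L L Ω) a P₁).symm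
  -- `δ` kills `S.low.H`
  let B₀ : Subalgebra k Ω :=
    { carrier := {x | ∃ h : x ∈ L, δ ⟨x, h⟩ = 0}
      mul_mem' := by
        rintro a b ⟨ha, ha'⟩ ⟨hb, hb'⟩
        refine ⟨L.mul_mem ha hb, ?_⟩
        have : (⟨a * b, L.mul_mem ha hb⟩ : L) = ⟨a, ha⟩ * ⟨b, hb⟩ := rfl
        rw [this, Derivation.leibniz, ha', hb', smul_zero, smul_zero, add_zero]
      add_mem' := by
        rintro a b ⟨ha, ha'⟩ ⟨hb, hb'⟩
        refine ⟨L.add_mem ha hb, ?_⟩
        have : (⟨a + b, L.add_mem ha hb⟩ : L) = ⟨a, ha⟩ + ⟨b, hb⟩ := rfl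
        rw [this, map_add, ha', hb', add_zero]
      algebraMap_mem' := fun c => ⟨L.algebraMap_mem c, by
        have : (⟨algebraMap k Ω c, L.algebraMap_mem c⟩ : L) = algebraMap k L c := rfl
        rw [this, Derivation.map_algebraMap]⟩ }
  have hB₀ : HCl v B₀ :=
    { inv := by
        rintro a ⟨ha, ha'⟩ h0 -
        refine ⟨L.inv_mem ha, ?_⟩
        have h1 : (⟨a⁻¹, L.inv_mem ha⟩ : L) * ⟨a, ha⟩ = 1 := Subtype.ext (inv_mul_cancel₀ h0)
        have h2 := congrArg δ h1
        rw [Derivation.leibniz, Derivation.map_one_eq_zero, ha', smul_zero, zero_add,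
          smul_eq_mul, mul_eq_zero] at h2
        exact h2.resolve_left fun h => h0 (congrArg Subtype.val h)
      root := by
        intro P _ hc a _ h0 h1 _
        have haL : a ∈ L := hroot P (fun i => (hc i).1) a h0 h1
        refine ⟨haL, ?_⟩
        obtain ⟨P₁, hP₁⟩ := hlift P fun i => (hc i).1
        have h2 : P₁.eval ⟨a, haL⟩ = 0 := Subtype.ext (by rw [hev, hP₁]; exact h0)
        have h3 := der_eval δ P₁ ⟨a, haL⟩
        rw [h2, map_zero] at h3
        have h4 : ∑ i ∈ P₁.support, (⟨a, haL⟩ : L) ^ i * δ (P₁.coeff i) = 0 := by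
          refine Finset.sum_eq_zero fun i _ => ?_
          obtain ⟨hi, hi'⟩ := hc i
          have : P₁.coeff i = ⟨P.coeff i, hi⟩ := Subtype.ext (hcoe P₁ P hP₁ i)
          rw [this, hi', mul_zero]
        rw [h4, zero_add] at h3
        refine (mul_eq_zero.1 h3.symm).resolve_left fun h => h1 ?_
        have h5 : (((derivative P₁).eval ⟨a, haL⟩ : L) : Ω) = 0 := by rw [h]; rfl
        rw [hev, ← derivative_map, hP₁] at h5
        exact h5 }
  have hlowB : S.low.H ≤ B₀ := hz_le (fun x hx => ⟨hKL (hlowK hx), hK0 _ (hlowK hx)⟩) hB₀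
  -- `δ` maps `S.H` to `S.H`
  have hcl := hz_hcl v S.P
  let B : Subalgebra k Ω :=
    { carrier := {x | x ∈ S.H ∧ ∃ h : x ∈ L, ((δ ⟨x, h⟩ : L) : Ω) ∈ S.H}
      mul_mem' := by
        rintro a b ⟨haH, ha, ha'⟩ ⟨hbH, hb, hb'⟩
        refine ⟨mul_mem haH hbH, L.mul_mem ha hb, ?_⟩
        have : (⟨a * b, L.mul_mem ha hb⟩ : L) = ⟨a, ha⟩ * ⟨b, hb⟩ := rfl
        rw [this, Derivation.leibniz]
        exact add_mem (mul_mem haH hb') (mul_mem hbH ha')
      add_mem' := by
        rintro a b ⟨haH, ha, ha'⟩ ⟨hbH, hb, hb'⟩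
        refine ⟨add_mem haH hbH, L.add_mem ha hb, ?_⟩
        have : (⟨a + b, L.add_mem ha hb⟩ : L) = ⟨a, ha⟩ + ⟨b, hb⟩ := rfl
        rw [this, map_add]
        exact add_mem ha' hb'
      algebraMap_mem' := fun c => ⟨S.H.algebraMap_mem c, L.algebraMap_mem c, by
        have : (⟨algebraMap k Ω c, L.algebraMap_mem c⟩ : L) = algebraMap k L c := rfl
        rw [this, Derivation.map_algebraMap]
        exact S.H.zero_mem⟩ }
  have hB : HCl v B :=
    { inv := by
        rintro a ⟨haH, ha, ha'⟩ h0 hv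
        have hinv := hcl.inv a haH h0 hv
        refine ⟨hinv, L.inv_mem ha, ?_⟩
        have h1 : (⟨a⁻¹, L.inv_mem ha⟩ : L) * ⟨a, ha⟩ = 1 := Subtype.ext (inv_mul_cancel₀ h0)
        have h2 := congrArg δ h1
        rw [Derivation.leibniz, Derivation.map_one_eq_zero, smul_eq_mul, smul_eq_mul] at h2
        have h3 := congrArg (fun e : L => (e : Ω)) h2
        have h4 : a⁻¹ * ((δ ⟨a, ha⟩ : L) : Ω) + a * ((δ ⟨a⁻¹, L.inv_mem ha⟩ : L) : Ω) = 0 := h3
        have h5 : ((δ ⟨a⁻¹, L.inv_mem ha⟩ : L) : Ω) = -(a⁻¹ * a⁻¹ * ((δ ⟨a, ha⟩ : L) : Ω)) := by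
          field_simp
          field_simp at h4
          linear_combination h4
        rw [h5]
        exact neg_mem (mul_mem (mul_mem hinv hinv) ha')
      root := by
        intro P hm hc a hge h0 h1 hv1
        have haH : a ∈ S.H := hcl.root P hm (fun i => (hc i).1) a hge h0 h1 hv1
        have haL : a ∈ L := hHL haH
        refine ⟨haH, haL, ?_⟩
        obtain ⟨P₁, hP₁⟩ := hlift P fun i => (hc i).2.1
        have h2 : P₁.eval ⟨a, haL⟩ = 0 := Subtype.ext (by rw [hev, hP₁]; exact h0)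
        have h3 := der_eval δ P₁ ⟨a, haL⟩
        rw [h2, map_zero] at h3
        have h4 : ((∑ i ∈ P₁.support, (⟨a, haL⟩ : L) ^ i * δ (P₁.coeff i) : L) : Ω) ∈ S.H := by
          have : ∀ s : Finset ℕ, ((∑ i ∈ s, (⟨a, haL⟩ : L) ^ i * δ (P₁.coeff i) : L) : Ω) ∈
              S.H := by
            intro s
            induction s using Finset.induction_on with
            | empty => rw [Finset.sum_empty]; exact S.H.zero_mem
            | insert i s hi ih =>
              rw [Finset.sum_insert hi]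
              refine add_mem ?_ ih
              obtain ⟨-, hi1, hi'⟩ := hc i
              have : P₁.coeff i = ⟨P.coeff i, hi1⟩ := Subtype.ext (hcoe P₁ P hP₁ i)
              rw [this]
              exact mul_mem (pow_mem haH i) hi'
          exact this _
        have h5 : (((derivative P₁).eval ⟨a, haL⟩ : L) : Ω) = (derivative P).eval a := by
          rw [hev, ← derivative_map, hP₁]
        have h6 := congrArg (fun e : L => (e : Ω)) h3
        have h7 : (0 : Ω) = ((∑ i ∈ P₁.support, (⟨a, haL⟩ : L) ^ i * δ (P₁.coeff i) : L) : Ω) +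
            (derivative P).eval a * ((δ ⟨a, haL⟩ : L) : Ω) := by
          rw [← h5]
          exact h6
        have h8 : ((δ ⟨a, haL⟩ : L) : Ω) = -(((derivative P).eval a)⁻¹ *
            ((∑ i ∈ P₁.support, (⟨a, haL⟩ : L) ^ i * δ (P₁.coeff i) : L) : Ω)) := by
          have h9 : (derivative P).eval a * ((δ ⟨a, haL⟩ : L) : Ω) =
            -((∑ i ∈ P₁.support, (⟨a, haL⟩ : L) ^ i * δ (P₁.coeff i) : L) : Ω) := by
            linear_combination -h7
          rw [← mul_neg, ← h9, ← mul_assoc, inv_mul_cancel₀ h1, one_mul]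
        rw [h8]
        refine neg_mem (mul_mem (hcl.inv _ ?_ h1 hv1) h4)
        rw [eval_eq_sum_range]
        refine sum_mem fun i _ => mul_mem ?_ (pow_mem haH i)
        rw [coeff_derivative]
        refine mul_mem (hc _).1 ?_
        exact_mod_cast (natCast_mem S.H (i + 1)) }
  have hPB : S.P ≤ B := by
    refine Algebra.adjoin_le ?_
    rintro f (⟨γ, hγ, rfl⟩ | ⟨i, rfl⟩)
    · have h1 : S.χ γ ∈ S.low.K := IntermediateField.subset_adjoin _ _ (Or.inl ⟨γ, hγ.1, rfl⟩)
      refine ⟨le_hz v S.P (Algebra.subset_adjoin (Or.inl ⟨γ, hγ, rfl⟩)), hKL h1, ?_⟩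
      rw [hK0 _ h1]
      exact S.H.zero_mem
    · refine ⟨le_hz v S.P (Algebra.subset_adjoin (Or.inr ⟨i, rfl⟩)), ?_⟩
      induction i using Fin.lastCases with
      | last =>
        refine ⟨hzL, ?_⟩
        rw [hz1 _ rfl]
        exact S.H.one_mem
      | cast i =>
        have h1 : S.y i.castSucc ∈ S.low.K :=
          IntermediateField.subset_adjoin _ _ (Or.inr ⟨i, rfl⟩)
        refine ⟨hKL h1, ?_⟩
        rw [hK0 _ h1]
        exact S.H.zero_mem
  have hHB : S.H ≤ B := hz_le hPB hB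
  refine ⟨L, δ, fun f hf => hHL hf, fun f hf => hlowHL hf, hz1, fun e he => ?_, fun e he => ?_⟩
  · exact (hlowB he).2
  · exact (hHB he).2.2

end Frames

end Pool.Agent.ALLY
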