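import Pool.Agent.Lib.TAO.Basic

/-!
# Hensel's lemma in several variables for subrings of a valued algebraically closed field

`A` is a subring of the valuation ring of an algebraically closed field `Ω`, closed under inverses
of elements of value zero and under simple roots of monic polynomials. It satisfies Hensel's lemma
in several variables (`mhensel`).
-/

set_option autoImplicit false

open Polynomial

namespace Pool.Agent.ALLH

open Pool.Agent.TAO

universe u w

variable {Ω : Type u} [Field Ω] {𝕂 : Type w} [Field 𝕂] [LinearOrder 𝕂] [IsStrictOrderedRing 𝕂]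

/-- Every element has value `≥ 0`, and `A` is closed under inverses of elements of value zero and
under roots `a` of monic polynomials `P` with `v (P' a) = 0`. -/
structure HClosed (v : OVal 𝕂 Ω) (A : Subring Ω) : Prop where
  nonneg : ∀ f ∈ A, v.Ge 0 f
  inv : ∀ f ∈ A, f ≠ 0 → v f = 0 → f⁻¹ ∈ A
  root : ∀ P : Polynomial Ω, P.Monic → (∀ i, P.coeff i ∈ A) → ∀ a, v.Ge 0 a → P.eval a = 0 →
    (derivative P).eval a ≠ 0 → v ((derivative P).eval a) = 0 → a ∈ A

variable {v : OVal 𝕂 Ω}

/-- The valuation ring. -/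
def OO (v : OVal 𝕂 Ω) : Subring Ω where
  carrier := {f | v.Ge 0 f}
  mul_mem' := fun {a b} ha hb => by
    have := OVal.Ge.mul (v := v) ha hb
    rwa [add_zero] at this
  one_mem' := fun _ => by rw [v.map_one]
  add_mem' := fun ha hb => OVal.Ge.add ha hb
  zero_mem' := OVal.Ge.zero
  neg_mem' := fun ha => OVal.Ge.neg ha

theorem mem_OO {f : Ω} : f ∈ OO v ↔ v.Ge 0 f := Iff.rfl

/-- The maximal ideal of the valuation ring. -/
def MM (v : OVal 𝕂 Ω) : Ideal (OO v) where
  carrier := {f | VPos v (f : Ω)}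
  add_mem' := fun ha hb => VPos.add ha hb
  zero_mem' := VPos.zero
  smul_mem' := fun c _ hx => VPos.mul' c.2 hx

theorem mem_MM {f : OO v} : f ∈ MM v ↔ VPos v (f : Ω) := Iff.rfl

theorem not_vpos_iff {f : Ω} (hf : v.Ge 0 f) : ¬ VPos v f ↔ f ≠ 0 ∧ v f = 0 := by
  constructor
  · intro h
    unfold VPos at h
    push Not at h
    exact ⟨h.1, le_antisymm h.2 (hf h.1)⟩
  · rintro ⟨h0, h1⟩ h
    exact absurd (h h0) (by rw [h1]; exact lt_irrefl _)

instance MM_isMaximal : (MM v).IsMaximal := by
  rw [Ideal.isMaximal_iff]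
  constructor
  · intro h
    have := mem_MM.1 h
    exact absurd (this one_ne_zero) (by
      show ¬ 0 < v ((1 : OO v) : Ω)
      rw [show ((1 : OO v) : Ω) = 1 from rfl, v.map_one]; exact lt_irrefl _)
  · intro J x _ hx hxJ
    obtain ⟨h0, h1⟩ := (not_vpos_iff x.2).1 hx
    have hinv : (x : Ω)⁻¹ ∈ OO v := fun _ => by rw [v.map_inv h0, h1, neg_zero]
    have : (⟨(x : Ω)⁻¹, hinv⟩ : OO v) * x = 1 := Subtype.ext (inv_mul_cancel₀ h0)
    rw [← this]
    exact J.mul_mem_left _ hxJ

/-- The residue field. -/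
abbrev KK (v : OVal 𝕂 Ω) : Type u := OO v ⧸ MM v

noncomputable instance : Field (KK v) := Ideal.Quotient.field _

theorem mk_eq_zero {f : OO v} : (Ideal.Quotient.mk (MM v) f = 0) ↔ VPos v (f : Ω) := by
  rw [Ideal.Quotient.eq_zero_iff_mem, mem_MM]

theorem vpos_or_of_mul {a b : Ω} (ha : v.Ge 0 a) (hb : v.Ge 0 b) (h : VPos v (a * b)) :
    VPos v a ∨ VPos v b := by
  by_contra hcon
  push Not at hcon
  obtain ⟨ha0, ha1⟩ := (not_vpos_iff ha).1 hcon.1
  obtain ⟨hb0, hb1⟩ := (not_vpos_iff hb).1 hcon.2
  have := h (mul_ne_zero ha0 hb0)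
  rw [v.map_mul ha0 hb0, ha1, hb1, add_zero] at this
  exact lt_irrefl _ this

/-- A root of a monic polynomial with coefficients of value `≥ 0` has value `≥ 0`. -/
theorem ge_of_monic {P : Polynomial Ω} (hP : P.Monic) (hc : ∀ i, v.Ge 0 (P.coeff i)) {a : Ω}
    (ha : P.eval a = 0) : v.Ge 0 a := by
  intro ha0
  by_contra hneg
  push Not at hneg
  have hd : P.natDegree ≠ 0 := by
    intro hd
    rw [eq_one_of_monic_natDegree_zero hP hd] at ha
    simp at ha
  -- the other terms have bigger value than the leading one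
  have h1 : a ^ P.natDegree = - ∑ i ∈ Finset.range P.natDegree, P.coeff i * a ^ i := by
    rw [eval_eq_sum_range, Finset.sum_range_succ, hP.coeff_natDegree, one_mul] at ha
    linear_combination ha
  have h2 : v.Ge ((P.natDegree - 1 : ℕ) * v a) (a ^ P.natDegree) := by
    rw [h1]
    refine OVal.Ge.neg (OVal.Ge.sum _ _ fun i hi => ?_)
    have hi' : i ≤ P.natDegree - 1 := Nat.le_pred_of_lt (Finset.mem_range.1 hi)
    have h3 : v.Ge (i * v a) (a ^ i) := fun _ => by rw [v.map_pow ha0]
    have h4 := (hc i).mul h3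
    refine h4.mono ?_
    rw [zero_add]
    exact mul_le_mul_of_nonpos_right (by exact_mod_cast hi') hneg.le
  have h5 := h2 (pow_ne_zero _ ha0)
  rw [v.map_pow ha0] at h5
  have h6 : ((P.natDegree - 1 : ℕ) : 𝕂) < (P.natDegree : 𝕂) := by
    exact_mod_cast Nat.sub_lt (Nat.pos_of_ne_zero hd) one_pos
  nlinarith [mul_lt_mul_of_neg_right h6 hneg]

/-- A monic polynomial over the valuation ring with `P(c)` of positive value has a root near
`c`. -/
theorem exists_root_near [IsAlgClosed Ω] {P : Polynomial Ω} (hP : P.Monic)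
    (hc : ∀ i, v.Ge 0 (P.coeff i)) {c : Ω} (hcO : v.Ge 0 c) (h : VPos v (P.eval c)) :
    ∃ a, P.eval a = 0 ∧ VPos v (a - c) := by
  have hs := IsAlgClosed.splits P
  have hprod : P = (P.roots.map (X - C ·)).prod := by
    have := hs.eq_prod_roots
    rwa [hP.leadingCoeff, C_1, one_mul] at this
  have key : ∀ s : Multiset Ω, (∀ a ∈ s, v.Ge 0 a) → VPos v ((s.map (X - C ·)).prod.eval c) →
      ∃ a ∈ s, VPos v (c - a) := by
    intro s
    induction s using Multiset.induction_on with
    | empty =>
      intro _ h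
      rw [Multiset.map_zero, Multiset.prod_zero, eval_one] at h
      exact absurd (h one_ne_zero) (by rw [v.map_one]; exact lt_irrefl _)
    | cons a s ih =>
      intro hs h
      rw [Multiset.map_cons, Multiset.prod_cons, eval_mul, eval_sub, eval_X, eval_C] at h
      have h1 : v.Ge 0 (c - a) := hcO.sub (hs a (Multiset.mem_cons_self a s))
      have h2 : v.Ge 0 ((s.map (X - C ·)).prod.eval c) := by
        have : ∀ s : Multiset Ω, (∀ a ∈ s, v.Ge 0 a) → v.Ge 0 ((s.map (X - C ·)).prod.eval c) := by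
          intro s
          induction s using Multiset.induction_on with
          | empty => intro _; rw [Multiset.map_zero, Multiset.prod_zero, eval_one]; exact (OO v).one_mem
          | cons b s ih =>
            intro hs
            rw [Multiset.map_cons, Multiset.prod_cons, eval_mul, eval_sub, eval_X, eval_C]
            exact (OO v).mul_mem (hcO.sub (hs b (Multiset.mem_cons_self b s)))
              (ih fun a ha => hs a (Multiset.mem_cons_of_mem ha))
        exact this s fun a ha => hs a (Multiset.mem_cons_of_mem ha)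
      rcases vpos_or_of_mul h1 h2 h with h3 | h3
      · exact ⟨a, Multiset.mem_cons_self a s, h3⟩
      · obtain ⟨b, hb, hb'⟩ := ih (fun a ha => hs a (Multiset.mem_cons_of_mem ha)) h3
        exact ⟨b, Multiset.mem_cons_of_mem hb, hb'⟩
  have hr : ∀ a ∈ P.roots, v.Ge 0 a := fun a ha =>
    ge_of_monic hP hc (mem_roots hP.ne_zero |>.1 ha)
  obtain ⟨a, ha, h1⟩ := key P.roots hr (by rw [← hprod]; exact h)
  refine ⟨a, mem_roots hP.ne_zero |>.1 ha, ?_⟩
  have := h1.neg
  rwa [neg_sub] at this

section

variable {A : Subring Ω}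

theorem HClosed.le_OO (hA : HClosed v A) : A ≤ OO v := hA.nonneg

/-- The residue map of `A`. -/
noncomputable def resA (hA : HClosed v A) : A →+* KK v :=
  (Ideal.Quotient.mk (MM v)).comp (Subring.inclusion hA.le_OO)

theorem resA_eq_zero (hA : HClosed v A) (a : A) : resA hA a = 0 ↔ VPos v (a : Ω) := mk_eq_zero

theorem resA_ne_zero (hA : HClosed v A) (a : A) : resA hA a ≠ 0 ↔ (a : Ω) ≠ 0 ∧ v a = 0 := by
  rw [Ne, resA_eq_zero, not_vpos_iff (hA.nonneg _ a.2)]

theorem isUnit_of_resA (hA : HClosed v A) {a : A} (h : resA hA a ≠ 0) : IsUnit a := by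
  obtain ⟨h0, h1⟩ := (resA_ne_zero hA a).1 h
  refine IsUnit.of_mul_eq_one (⟨(a : Ω)⁻¹, hA.inv _ a.2 h0 h1⟩ : A) ?_
  exact Subtype.ext (mul_inv_cancel₀ h0)

/-- A simple residue root of a monic polynomial over `A` lifts to `A`. -/
theorem exists_root_mem [IsAlgClosed Ω] (hA : HClosed v A) {P : Polynomial Ω} (hP : P.Monic)
    (hc : ∀ i, P.coeff i ∈ A) {c : Ω} (hcO : v.Ge 0 c) (h : VPos v (P.eval c))
    (h' : ¬ VPos v ((derivative P).eval c)) :
    ∃ a ∈ A, P.eval a = 0 ∧ VPos v (a - c) := by
  obtain ⟨a, ha, hac⟩ := exists_root_near hP (fun i => hA.nonneg _ (hc i)) hcO h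
  have haO : v.Ge 0 a := by
    have := hac.ge.add hcO
    rwa [sub_add_cancel] at this
  -- `P' a ≡ P' c`
  have hPO : ∀ i, (derivative P).coeff i ∈ OO v := fun i => by
    rw [coeff_derivative]
    exact (OO v).mul_mem (hA.nonneg _ (hc _)) (by
      have := natCast_mem (OO v) (i + 1)
      push_cast at this
      exact this)
  have hO : ∀ (Q : Polynomial Ω), (∀ i, Q.coeff i ∈ OO v) → ∀ x ∈ OO v, Q.eval x ∈ OO v := by
    intro Q hQ x hx
    rw [eval_eq_sum_range]
    exact (OO v).sum_mem fun i _ => (OO v).mul_mem (hQ i) ((OO v).pow_mem hx i)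
  have hd : VPos v ((derivative P).eval a - (derivative P).eval c) := by
    have h2 : ∀ (Q : Polynomial Ω), (∀ i, Q.coeff i ∈ OO v) → VPos v (Q.eval a - Q.eval c) := by
      intro Q hQ
      rw [eval_eq_sum_range, eval_eq_sum_range, ← Finset.sum_sub_distrib]
      have h3 : ∀ (s : Finset ℕ) (f : ℕ → Ω), (∀ i ∈ s, VPos v (f i)) → VPos v (∑ i ∈ s, f i) := by
        intro s f
        induction s using Finset.induction_on with
        | empty => intro _; rw [Finset.sum_empty]; exact VPos.zero
        | insert a s ha ih =>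
          intro hf
          rw [Finset.sum_insert ha]
          exact (hf a (Finset.mem_insert_self a s)).add
            (ih fun i hi => hf i (Finset.mem_insert_of_mem hi))
      refine h3 _ _ fun i _ => ?_
      rw [← mul_sub]
      refine VPos.mul' (hQ i) ?_
      obtain ⟨q, hq⟩ : ∃ q ∈ OO v, a ^ i - c ^ i = (a - c) * q := by
        clear h3
        rename_i hi
        clear hi
        induction i with
        | zero => exact ⟨0, (OO v).zero_mem, by simp⟩
        | succ i ih =>
          obtain ⟨q, hq, hq'⟩ := ih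
          refine ⟨q * a + c ^ i, (OO v).add_mem ((OO v).mul_mem hq haO) ((OO v).pow_mem hcO i), ?_⟩
          have : a ^ (i + 1) - c ^ (i + 1) = (a ^ i - c ^ i) * a + c ^ i * (a - c) := by ring
          rw [this, hq']; ring
      rw [hq.2]
      exact hac.mul hq.1
    exact h2 _ hPO
  have hnv : ¬ VPos v ((derivative P).eval a) := fun h1 => h' (by
    have := h1.sub hd
    rwa [sub_sub_cancel] at this)
  obtain ⟨h0, h1⟩ := (not_vpos_iff (hO _ hPO a haO)).1 hnv
  exact ⟨a, hA.root P hP hc a haO ha h0 h1, ha, hac⟩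

/-- An étale algebra with a point over the residue field has a point over `A`. -/
theorem etale_hensel [IsAlgClosed Ω] (hA : HClosed v A) {B : Type u} [CommRing B] [Algebra A B]
    [Algebra.Etale A B] (ε : B →+* KK v) (hε : ε.comp (algebraMap A B) = resA hA) :
    ∃ φ : B →ₐ[A] A, ∀ b, resA hA (φ b) = ε b := by
  let : Algebra A (KK v) := (resA hA).toAlgebra
  let Q : Ideal B := RingHom.ker ε
  have : Q.IsPrime := RingHom.ker_isPrime ε
  obtain ⟨f, hfQ, hf⟩ := Algebra.IsEtaleAt.exists_isStandardEtale (R := A) Q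
  have hf0 : ε f ≠ 0 := fun h => hfQ ((RingHom.mem_ker).2 h)
  let εa : B →ₐ[A] KK v := AlgHom.mk ε (fun a => congrArg (fun g : A →+* KK v => g a) hε)
  have hunit : ∀ y : Submonoid.powers f, IsUnit (εa y) := by
    rintro ⟨_, n, rfl⟩
    rw [map_pow]
    exact (IsUnit.mk0 _ hf0).pow n
  let ε' : Localization.Away f →ₐ[A] KK v := IsLocalization.liftAlgHom (M := Submonoid.powers f)
    (f := εa) hunit
  have hε' : ∀ b, ε' (algebraMap B (Localization.Away f) b) = ε b := fun b => by
    exact IsLocalization.lift_eq (M := Submonoid.powers f) hunit b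
  obtain ⟨P⟩ := hf.nonempty_standardEtalePresentation
  -- the residue of the generator
  obtain ⟨c, hc⟩ := Ideal.Quotient.mk_surjective (ε' P.x)
  let ev : Polynomial A →+* OO v := eval₂RingHom (Subring.inclusion hA.le_OO) c
  have hev : ∀ q : Polynomial A, ε' (aeval P.x q) = Ideal.Quotient.mk (MM v) (ev q) := by
    have : (ε'.toRingHom.comp (aeval (R := A) P.x).toRingHom) =
        (Ideal.Quotient.mk (MM v)).comp ev := by
      refine Polynomial.ringHom_ext (fun a => ?_) ?_
      · show ε' (aeval P.x (C a)) = _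
        rw [aeval_C, AlgHom.commutes]
        simp [ev]
        rfl
      · show ε' (aeval P.x X) = _
        rw [aeval_X]
        simp [ev, hc]
    intro q
    exact congrArg (fun g : Polynomial A →+* KK v => g q) this
  have hevc : ∀ q : Polynomial A, ((ev q : OO v) : Ω) = (q.map A.subtype).eval (c : Ω) := by
    intro q
    have : ((OO v).subtype.comp ev) = (eval₂RingHom A.subtype (c : Ω)) := by
      refine Polynomial.ringHom_ext (fun a => ?_) ?_
      · simp [ev]
      · simp [ev]
    have h2 := congrArg (fun g : Polynomial A →+* Ω => g q) this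
    rw [eval_map]
    exact h2
  -- the root
  have hmon : (P.f.map A.subtype).Monic := P.monic_f.map _
  have hcoef : ∀ i, (P.f.map A.subtype).coeff i ∈ A := fun i => by
    rw [coeff_map]; exact (P.f.coeff i).2
  have h1 : VPos v ((P.f.map A.subtype).eval (c : Ω)) := by
    rw [← hevc, ← mk_eq_zero, ← hev, P.hasMap.1, map_zero]
  have h2 : ¬ VPos v ((derivative (P.f.map A.subtype)).eval (c : Ω)) := by
    rw [derivative_map, ← hevc, ← mk_eq_zero, ← hev]
    exact (P.hasMap.isUnit_derivative_f.map ε').ne_zero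
  obtain ⟨a, haA, ha, hac⟩ := exists_root_mem hA hmon hcoef c.2 h1 h2
  have haO : v.Ge 0 a := hA.nonneg _ haA
  have hres : resA hA ⟨a, haA⟩ = ε' P.x := by
    rw [← hc]
    refine sub_eq_zero.1 ?_
    rw [resA, RingHom.comp_apply, ← map_sub]
    exact mk_eq_zero.2 hac
  have hA1 : ∀ q : Polynomial A, resA hA (aeval (⟨a, haA⟩ : A) q) = ε' (aeval P.x q) := by
    intro q
    have : (resA hA).comp (aeval (R := A) (⟨a, haA⟩ : A)).toRingHom =
        (ε'.toRingHom.comp (aeval (R := A) P.x).toRingHom) := by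
      refine Polynomial.ringHom_ext (fun b => ?_) ?_
      · show resA hA (aeval _ (C b)) = ε' (aeval _ (C b))
        rw [aeval_C, aeval_C, AlgHom.commutes]; rfl
      · show resA hA (aeval _ X) = ε' (aeval _ X)
        rw [aeval_X, aeval_X, hres]
    exact congrArg (fun g : Polynomial A →+* KK v => g q) this
  have hmapA : P.HasMap (⟨a, haA⟩ : A) := by
    constructor
    · refine Subtype.ext ?_
      have h3 : ((aeval (⟨a, haA⟩ : A) P.f : A) : Ω) = (P.f.map A.subtype).eval a := by
        rw [eval_map]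
        exact hom_eval₂ P.f (algebraMap A A) A.subtype (⟨a, haA⟩ : A)
      rw [h3, ha]; rfl
    · refine isUnit_of_resA hA ?_
      rw [hA1]
      exact (P.hasMap.2.map ε').ne_zero
  let φ : Localization.Away f →ₐ[A] A := (P.lift _ hmapA).comp P.equivRing.toAlgHom
  have hφx : φ P.x = ⟨a, haA⟩ := by
    show P.lift _ hmapA (P.equivRing P.x) = _
    rw [StandardEtalePresentation.equivRing_x, StandardEtalePair.lift_X]
  refine ⟨φ.comp (Algebra.algHom A B (Localization.Away f)), fun b => ?_⟩
  have hfin : (Algebra.ofId A (KK v)).comp φ = ε' := by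
    refine P.hom_ext ?_
    show algebraMap A (KK v) (φ P.x) = _
    rw [hφx]
    exact hres
  have h4 := congrArg (fun g : Localization.Away f →ₐ[A] KK v =>
    g (algebraMap B (Localization.Away f) b)) hfin
  rw [← hε']
  exact h4

end

/-! ## Several variables -/

section

variable {A : Subring Ω} {σ : Type} [Fintype σ] [DecidableEq σ]

/-- The Jacobian determinant of `g` at `c`. -/
noncomputable def jac (g : σ → MvPolynomial σ Ω) (c : σ → Ω) : Ω :=
  (Matrix.of fun i j => MvPolynomial.eval c (MvPolynomial.pderiv j (g i))).det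

/-- HENSEL'S LEMMA IN SEVERAL VARIABLES. -/
theorem mhensel [IsAlgClosed Ω] (hA : HClosed v A) (g : σ → MvPolynomial σ Ω)
    (hg : ∀ i d, (g i).coeff d ∈ A) (c : σ → Ω) (hc : ∀ i, v.Ge 0 (c i))
    (h0 : ∀ i, VPos v (MvPolynomial.eval c (g i))) (hJ : ¬ VPos v (jac g c)) :
    ∃ a : σ → Ω, (∀ i, a i ∈ A) ∧ (∀ i, MvPolynomial.eval a (g i) = 0) ∧
      ∀ i, VPos v (a i - c i) := by
  classical
  -- lift `g` to `A`
  have hlift : ∀ i, ∃ G : MvPolynomial σ A, MvPolynomial.map A.subtype G = g i := by
    intro i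
    have : g i ∈ Set.range (MvPolynomial.map (σ := σ) A.subtype) := by
      rw [MvPolynomial.mem_range_map_iff_coeffs_subset]
      intro x hx
      obtain ⟨d, -, rfl⟩ := MvPolynomial.mem_coeffs_iff.1 hx
      exact ⟨⟨_, hg i d⟩, rfl⟩
    exact this
  choose G hG using hlift
  let B₀ : Type u := MvPolynomial σ A ⧸ Ideal.span (Set.range G)
  let : CommRing B₀ := inferInstanceAs (CommRing (MvPolynomial σ A ⧸ Ideal.span (Set.range G)))
  let : Algebra A B₀ := inferInstanceAs (Algebra A (MvPolynomial σ A ⧸ Ideal.span (Set.range G)))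
  let PP : Algebra.PreSubmersivePresentation A B₀ σ σ :=
    Algebra.PreSubmersivePresentation.naive (v := G) id Function.injective_id
  let J : B₀ := PP.jacobian
  let B : Type u := Localization.Away J
  let QQ : Algebra.PreSubmersivePresentation B₀ B Unit Unit :=
    Algebra.PreSubmersivePresentation.localizationAway B J
  have hQJ : (QQ.comp PP).jacobian = J • algebraMap B₀ B J := by
    rw [Algebra.PreSubmersivePresentation.comp_jacobian_eq_jacobian_smul_jacobian,
      Algebra.PreSubmersivePresentation.localizationAway_jacobian]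
  have hunit : IsUnit (QQ.comp PP).jacobian := by
    rw [hQJ, Algebra.smul_def]
    exact (IsLocalization.Away.algebraMap_isUnit J).mul (IsLocalization.Away.algebraMap_isUnit J)
  let SP : Algebra.SubmersivePresentation A B (Unit ⊕ σ) (Unit ⊕ σ) :=
    { QQ.comp PP with jacobian_isUnit := hunit }
  have hdim : SP.dimension = 0 := by
    show Nat.card (Unit ⊕ σ) - Nat.card (Unit ⊕ σ) = 0
    exact Nat.sub_self _
  have hss : Algebra.IsStandardSmoothOfRelativeDimension 0 A B :=
    SP.isStandardSmoothOfRelativeDimension hdim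
  have het : Algebra.Etale A B := inferInstance
  -- the point over the residue field
  let cO : σ → OO v := fun i => ⟨c i, hc i⟩
  let ev₀ : MvPolynomial σ A →+* OO v := MvPolynomial.eval₂Hom (Subring.inclusion hA.le_OO) cO
  have hev₀ : ∀ q : MvPolynomial σ A, ((ev₀ q : OO v) : Ω) =
      MvPolynomial.eval c (MvPolynomial.map A.subtype q) := by
    intro q
    have : ((OO v).subtype.comp ev₀) =
        (MvPolynomial.eval c).comp (MvPolynomial.map A.subtype) := by
      refine MvPolynomial.ringHom_ext (fun a => ?_) fun i => ?_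
      · simp [ev₀]
      · simp [ev₀, cO]
    exact congrArg (fun h : MvPolynomial σ A →+* Ω => h q) this
  let ε₀ : MvPolynomial σ A →+* KK v := (Ideal.Quotient.mk (MM v)).comp ev₀
  have hε₀ : ∀ a ∈ Ideal.span (Set.range G), ε₀ a = 0 := by
    have : Ideal.span (Set.range G) ≤ RingHom.ker ε₀ := by
      rw [Ideal.span_le]
      rintro _ ⟨i, rfl⟩
      rw [SetLike.mem_coe, RingHom.mem_ker]
      show Ideal.Quotient.mk (MM v) (ev₀ (G i)) = 0
      rw [mk_eq_zero, hev₀, hG]
      exact h0 i
    exact fun a ha => this ha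
  let ε₁ : B₀ →+* KK v := Ideal.Quotient.lift _ ε₀ hε₀
  have hε₁q : ∀ q : MvPolynomial σ A, ε₁ (Ideal.Quotient.mk _ q) = ε₀ q := fun q => by
    exact Ideal.Quotient.lift_mk _ _ _
  have halg : ∀ q : MvPolynomial σ A, (algebraMap PP.Ring B₀) q = Ideal.Quotient.mk _ q := by
    intro q
    rw [Algebra.Generators.algebraMap_apply]
    have : (MvPolynomial.aeval (R := A) PP.val).toRingHom =
        (Ideal.Quotient.mk (Ideal.span (Set.range G))) := by
      refine MvPolynomial.ringHom_ext (fun a => ?_) fun i => ?_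
      · show MvPolynomial.aeval (R := A) PP.val (MvPolynomial.C a) = _
        rw [MvPolynomial.aeval_C]
        rfl
      · show MvPolynomial.aeval (R := A) PP.val (MvPolynomial.X i) = _
        rw [MvPolynomial.aeval_X]
        rfl
    exact congrArg (fun h : MvPolynomial σ A →+* B₀ => h q) this
  have hJ' : ε₁ J = Ideal.Quotient.mk (MM v) (ev₀ (PP.jacobiMatrix.det)) := by
    show ε₁ PP.jacobian = _
    rw [Algebra.PreSubmersivePresentation.jacobian_eq_jacobiMatrix_det, halg, hε₁q]
    rfl
  have hJ2 : ((ev₀ (PP.jacobiMatrix.det) : OO v) : Ω) = jac g c := by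
    rw [hev₀, RingHom.map_det, RingHom.map_det, jac, ← Matrix.det_transpose]
    congr 1
    ext i j
    simp only [Matrix.transpose_apply, RingHom.mapMatrix_apply, Matrix.map_apply, Matrix.of_apply]
    rw [show PP.jacobiMatrix j i = (G i).pderiv (id j) from
      Algebra.PreSubmersivePresentation.jacobiMatrix_naive _ _ _ _ _ _]
    rw [id, ← MvPolynomial.pderiv_map, hG]
  have hε₁J : ε₁ J ≠ 0 := by
    rw [hJ', Ne, mk_eq_zero, hJ2]
    exact hJ
  let ε : B →+* KK v := IsLocalization.Away.lift (S := B) J (g := ε₁) (IsUnit.mk0 _ hε₁J)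
  have hεB : ∀ b : B₀, ε (algebraMap B₀ B b) = ε₁ b := fun b => by
    exact IsLocalization.Away.lift_eq J (IsUnit.mk0 _ hε₁J) b
  have hAB : ∀ a : A, algebraMap A B a = algebraMap B₀ B (Ideal.Quotient.mk _ (MvPolynomial.C a)) :=
    fun a => IsScalarTower.algebraMap_apply A B₀ B a
  have hε : ε.comp (algebraMap A B) = resA hA := by
    ext a
    rw [RingHom.comp_apply, hAB, hεB, hε₁q]
    show Ideal.Quotient.mk (MM v) (ev₀ (MvPolynomial.C a)) = _
    rw [MvPolynomial.eval₂Hom_C]
    rfl
  obtain ⟨φ, hφ⟩ := etale_hensel hA ε hε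
  let x : σ → B := fun i => algebraMap B₀ B (Ideal.Quotient.mk _ (MvPolynomial.X i))
  have hφq : ∀ q : MvPolynomial σ A, ((φ (algebraMap B₀ B (Ideal.Quotient.mk _ q)) : A) : Ω) =
      MvPolynomial.eval (fun i => (φ (x i) : Ω)) (MvPolynomial.map A.subtype q) := by
    intro q
    have : ((A.subtype.comp φ.toRingHom).comp (algebraMap B₀ B)).comp (Ideal.Quotient.mk _) =
        (MvPolynomial.eval (fun i => (φ (x i) : Ω))).comp (MvPolynomial.map A.subtype) := by
      refine MvPolynomial.ringHom_ext (fun a => ?_) fun i => ?_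
      · show ((φ (algebraMap B₀ B (Ideal.Quotient.mk _ (MvPolynomial.C a))) : A) : Ω) = _
        rw [← hAB, AlgHom.commutes]
        simp
      · simp [x]
    exact congrArg (fun h : MvPolynomial σ A →+* Ω => h q) this
  refine ⟨fun i => (φ (x i) : Ω), fun i => (φ (x i)).2, fun i => ?_, fun i => ?_⟩
  · rw [← hG, ← hφq]
    have : (Ideal.Quotient.mk (Ideal.span (Set.range G)) (G i)) = 0 :=
      Ideal.Quotient.eq_zero_iff_mem.2 (Ideal.subset_span ⟨i, rfl⟩)
    rw [this]
    show ((φ (algebraMap B₀ B 0) : A) : Ω) = 0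
    rw [map_zero, map_zero]; rfl
  · have h1 := hφ (x i)
    have h2 : ε (x i) = Ideal.Quotient.mk (MM v) (cO i) := by
      show ε (algebraMap B₀ B _) = _
      rw [hεB, hε₁q]
      show Ideal.Quotient.mk (MM v) (ev₀ (MvPolynomial.X i)) = _
      rw [MvPolynomial.eval₂Hom_X']
    rw [h2] at h1
    have h3 := sub_eq_zero.2 h1
    rw [resA, RingHom.comp_apply, ← map_sub] at h3
    exact mk_eq_zero.1 h3

end

end Pool.Agent.ALLH
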