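import Pool.Agent.Lib.ALLY.Defs
import Pool.Agent.Lib.ALLH_h95.MHensel

/-!
# Evaluation `z ↦ ψ` on the henselization of `A[z]`
-/

set_option autoImplicit false

open Polynomial

namespace Pool.Agent.ALLY

open Pool.Agent.TAO (OVal VPos Ctx0 CtxR)
open Pool.Agent.ALLH (HClosed exists_root_mem not_vpos_iff)

universe u w

namespace Ev95

variable {k Ω : Type u} [Field k] [Field Ω] [Algebra k Ω] {𝕂 : Type w} [Field 𝕂] [LinearOrder 𝕂]
  [IsStrictOrderedRing 𝕂] {v : OVal 𝕂 Ω} {n : ℕ}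

theorem ge_const (h : Ctx0 k v n) (c : k) : v.Ge 0 (algebraMap k Ω c) := by
  intro h0
  have : c ≠ 0 := by rintro rfl; simp at h0
  rw [h.triv c this]

theorem residue (h : Ctx0 k v n) {f : Ω} (hf : v.Ge 0 f) :
    ∃ c : k, VPos v (f - algebraMap k Ω c) := by
  by_cases h0 : f = 0
  · exact ⟨0, by simp [h0, VPos.zero]⟩
  rcases (hf h0).lt_or_eq with h1 | h1
  · exact ⟨0, by rw [map_zero, sub_zero]; exact fun _ => h1⟩
  · obtain ⟨c, -, hc⟩ := h.res f h0 h1.symm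
    exact ⟨c, hc⟩

/-- The valuation ring as a subalgebra. -/
def VO (h : Ctx0 k v n) : Subalgebra k Ω :=
  { ALLH.OO v with algebraMap_mem' := fun c => ge_const h c }

theorem hz_ge (h : Ctx0 k v n) {A : Subalgebra k Ω} (hA : ∀ a ∈ A, v.Ge 0 a) :
    ∀ a ∈ Hz v A, v.Ge 0 a := by
  have : Hz v A ≤ VO h := by
    refine hz_le (fun a ha => hA a ha) { inv := ?_, root := ?_ }
    · intro a _ h0 h1
      show v.Ge 0 a⁻¹
      intro _
      rw [v.map_inv h0, h1, neg_zero]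
    · intro P _ _ a ha _ _ _
      exact ha
  exact fun a ha => this ha

theorem hclosed (h : Ctx0 k v n) {A : Subalgebra k Ω} (hA : ∀ a ∈ A, v.Ge 0 a) :
    HClosed v (Hz v A).toSubring where
  nonneg := hz_ge h hA
  inv := (hz_hcl v A).inv
  root := fun P hP hc a ha h0 h1 h2 => (hz_hcl v A).root P hP hc a ha h0 h1 h2

/-- A root `a ∈ H` of a monic polynomial `P` which is close to a monic polynomial `P₀` over `S`:
`a` is close to a root of `P₀` in `S`. -/
theorem root_close [IsAlgClosed Ω] (h : Ctx0 k v n) {A A' : Subalgebra k Ω} (hAA' : A ≤ A')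
    (hA' : ∀ a ∈ A', v.Ge 0 a) {x : Ω} (hx : x ∈ Hz v A') (hx0 : VPos v x)
    {P : Polynomial Ω} (hP : P.Monic) (p g : ℕ → Ω) (hp : ∀ i, p i ∈ Hz v A)
    (hg : ∀ i, g i ∈ Hz v A') (hpg : ∀ i, P.coeff i = p i + x * g i) {a : Ω} (haH : a ∈ Hz v A')
    (ha : P.eval a = 0) (h1 : (derivative P).eval a ≠ 0) (h2 : v ((derivative P).eval a) = 0) :
    ∃ a₀ ∈ Hz v A, ∃ q ∈ Hz v A', a = a₀ + x * q := by
  have hA : ∀ a ∈ A, v.Ge 0 a := fun a ha => hA' a (hAA' ha)
  have hSH : Hz v A ≤ Hz v A' := hz_mono hAA'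
  have hnn := hz_ge h hA'
  set N := P.natDegree with hN
  -- the polynomial over `S`
  let P₀ : Polynomial Ω := X ^ N + ∑ i ∈ Finset.range N, C (p i) * X ^ i
  let G : Polynomial Ω := ∑ i ∈ Finset.range N, C (g i) * X ^ i
  have hdeg : (∑ i ∈ Finset.range N, C (p i) * X ^ i : Polynomial Ω).degree < N := by
    rw [degree_lt_iff_coeff_zero]
    intro m hm
    simp only [finset_sum_coeff, coeff_C_mul, coeff_X_pow]
    refine Finset.sum_eq_zero fun i hi => ?_
    rw [if_neg (by have := Finset.mem_range.1 hi; omega), mul_zero]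
  have hP₀m : P₀.Monic := monic_X_pow_add hdeg
  have hPP : P = P₀ + C x * G := by
    have h3 := hP.as_sum
    rw [← hN] at h3
    rw [h3]
    simp only [P₀, G, Finset.mul_sum, add_assoc, ← Finset.sum_add_distrib]
    congr 1
    refine Finset.sum_congr rfl fun i _ => ?_
    rw [hpg, C_add, C_mul]
    ring
  have hP₀c : ∀ i, P₀.coeff i ∈ Hz v A := by
    intro i
    simp only [P₀, coeff_add, coeff_X_pow, finset_sum_coeff, coeff_C_mul]
    refine add_mem ?_ (sum_mem fun j _ => mul_mem (hp j) ?_)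
    · split_ifs
      · exact one_mem _
      · exact zero_mem _
    · split_ifs
      · exact one_mem _
      · exact zero_mem _
  have hGc : ∀ i, G.coeff i ∈ Hz v A' := by
    intro i
    simp only [G, finset_sum_coeff, coeff_C_mul, coeff_X_pow]
    refine sum_mem fun j _ => mul_mem (hg j) ?_
    split_ifs
    · exact one_mem _
    · exact zero_mem _
  have hev : ∀ (Q : Polynomial Ω), (∀ i, Q.coeff i ∈ Hz v A') → ∀ b ∈ Hz v A',
      Q.eval b ∈ Hz v A' := by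
    intro Q hQ b hb
    rw [eval_eq_sum_range]
    exact sum_mem fun i _ => mul_mem (hQ i) (pow_mem hb i)
  have hder : ∀ (Q : Polynomial Ω), (∀ i, Q.coeff i ∈ Hz v A') →
      ∀ i, (derivative Q).coeff i ∈ Hz v A' := by
    intro Q hQ i
    rw [coeff_derivative]
    refine mul_mem (hQ _) ?_
    exact_mod_cast (natCast_mem (Hz v A') (i + 1))
  have hP₀a : P₀.eval a = -(x * G.eval a) := by
    have := ha
    rw [hPP, eval_add, eval_mul, eval_C] at this
    linear_combination this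
  have hP₀'a : (derivative P₀).eval a = (derivative P).eval a - x * (derivative G).eval a := by
    rw [hPP]
    simp only [derivative_add, derivative_mul, derivative_C, zero_mul, zero_add, eval_add,
      eval_mul, eval_C]
    ring
  have hGa := hev G hGc a haH
  have hG'a := hev _ (hder G hGc) a haH
  have hP₀H : ∀ i, P₀.coeff i ∈ Hz v A' := fun i => hSH (hP₀c i)
  have hP₀nv : ¬ VPos v ((derivative P₀).eval a) := by
    intro h3
    have h4 : VPos v ((derivative P).eval a) := by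
      have := h3.add (hx0.mul (hnn _ hG'a))
      rw [hP₀'a, sub_add_cancel] at this
      exact this
    exact (not_vpos_iff (hnn _ (hev _ (hder P (fun i => by
      rw [hpg]; exact add_mem (hSH (hp i)) (mul_mem hx (hg i)))) a haH))).2 ⟨h1, h2⟩ h4
  -- the residue of `a`
  obtain ⟨c, hc⟩ := residue h (hnn a haH)
  -- congruences in the ring `H`
  have hlift : ∀ Q : Polynomial Ω, (∀ i, Q.coeff i ∈ Hz v A') →
      ∃ Q₁ : Polynomial (Hz v A'), Q₁.map (algebraMap (Hz v A') Ω) = Q := by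
    intro Q hQ
    have : Q ∈ Polynomial.lifts (algebraMap (Hz v A') Ω) := by
      rw [Polynomial.lifts_iff_coeff_lifts]
      intro i
      exact ⟨⟨_, hQ i⟩, rfl⟩
    exact this
  have hcoe : ∀ (Q₁ : Polynomial (Hz v A')) (b : Hz v A'), ((Q₁.eval b : Hz v A') : Ω) =
      (Q₁.map (algebraMap (Hz v A') Ω)).eval (b : Ω) := by
    intro Q₁ b
    rw [eval_map]
    exact hom_eval₂ Q₁ (RingHom.id _) (algebraMap (Hz v A') Ω) b
  have hbin : ∀ (Q : Polynomial Ω), (∀ i, Q.coeff i ∈ Hz v A') → ∀ b ∈ Hz v A', ∀ y ∈ Hz v A',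
      ∃ w ∈ Hz v A', Q.eval (b + y) = Q.eval b + (derivative Q).eval b * y + w * y ^ 2 := by
    intro Q hQ b hb y hy
    obtain ⟨Q₁, hQ₁⟩ := hlift Q hQ
    obtain ⟨w, hw⟩ := Q₁.binomExpansion ⟨b, hb⟩ ⟨y, hy⟩
    refine ⟨w, w.2, ?_⟩
    have h3 := congrArg (fun e : Hz v A' => (e : Ω)) hw
    have h4 : ((Q₁.eval (⟨b, hb⟩ + ⟨y, hy⟩) : Hz v A') : Ω) =
        ((Q₁.eval ⟨b, hb⟩ : Hz v A') : Ω) + (((derivative Q₁).eval ⟨b, hb⟩ : Hz v A') : Ω) * y +
          (w : Ω) * y ^ 2 := h3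
    rw [hcoe, hcoe, hcoe, ← derivative_map, hQ₁] at h4
    exact h4
  have hcH : algebraMap k Ω c ∈ Hz v A' := (Hz v A').algebraMap_mem c
  have hcong : ∀ (Q : Polynomial Ω), (∀ i, Q.coeff i ∈ Hz v A') → ∀ b ∈ Hz v A', ∀ y ∈ Hz v A',
      VPos v y → VPos v (Q.eval (b + y) - Q.eval b) := by
    intro Q hQ b hb y hy hy0
    obtain ⟨w, hw, hw'⟩ := hbin Q hQ b hb y hy
    have : Q.eval (b + y) - Q.eval b = y * ((derivative Q).eval b + w * y) := by
      rw [hw']; ring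
    rw [this]
    exact hy0.mul (hnn _ (add_mem (hev _ (hder Q hQ) b hb) (mul_mem hw hy)))
  have hac : a - algebraMap k Ω c ∈ Hz v A' := sub_mem haH hcH
  have hc1 : VPos v (P₀.eval (algebraMap k Ω c)) := by
    have h3 := hcong P₀ hP₀H _ hcH _ hac hc
    rw [add_sub_cancel] at h3
    have h4 : VPos v (P₀.eval a) := by
      rw [hP₀a]
      exact (hx0.mul (hnn _ hGa)).neg
    have h5 := h4.sub h3
    rwa [sub_sub_cancel] at h5
  have hc2 : ¬ VPos v ((derivative P₀).eval (algebraMap k Ω c)) := by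
    intro h5
    have h3 := hcong (derivative P₀) (hder P₀ hP₀H) _ hcH _ hac hc
    rw [add_sub_cancel] at h3
    refine hP₀nv ?_
    have := h3.add h5
    rwa [sub_add_cancel] at this
  obtain ⟨a₀, ha₀, ha₀', ha₀c⟩ := exists_root_mem (hclosed h hA) hP₀m hP₀c (ge_const h c) hc1 hc2
  have ha₀H : a₀ ∈ Hz v A' := hSH ha₀
  -- `a - a₀`
  have hy : a - a₀ ∈ Hz v A' := sub_mem haH ha₀H
  have hy0 : VPos v (a - a₀) := by
    have := hc.sub ha₀c
    rwa [sub_sub_sub_cancel_right] at this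
  obtain ⟨w, hw, hw'⟩ := hbin P₀ hP₀H a₀ ha₀H _ hy
  rw [add_sub_cancel, ha₀', zero_add, hP₀a] at hw'
  have hu : ¬ VPos v ((derivative P₀).eval a₀ + w * (a - a₀)) := by
    intro h3
    refine hc2 ?_
    have h4 : VPos v ((derivative P₀).eval a₀) := by
      have := h3.sub (hy0.mul' (hnn _ hw))
      rwa [add_sub_cancel_right] at this
    have h5 := hcong (derivative P₀) (hder P₀ hP₀H) _ hcH _ (sub_mem ha₀H hcH) ha₀c
    rw [add_sub_cancel] at h5
    have := h4.sub h5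
    rwa [sub_sub_cancel] at this
  have huH : (derivative P₀).eval a₀ + w * (a - a₀) ∈ Hz v A' :=
    add_mem (hev _ (hder P₀ hP₀H) a₀ ha₀H) (mul_mem hw hy)
  obtain ⟨hu0, hu1⟩ := (not_vpos_iff (hnn _ huH)).1 hu
  refine ⟨a₀, ha₀, -(G.eval a * ((derivative P₀).eval a₀ + w * (a - a₀))⁻¹),
    neg_mem (mul_mem hGa ((hz_hcl v A').inv _ huH hu0 hu1)), ?_⟩
  have h6 : ((derivative P₀).eval a₀ + w * (a - a₀)) * (a - a₀) = -(x * G.eval a) := by
    rw [hw']; ring
  have h7 : a - a₀ = -(x * G.eval a) * ((derivative P₀).eval a₀ + w * (a - a₀))⁻¹ := by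
    rw [← h6, mul_comm _ (a - a₀), mul_assoc, mul_inv_cancel₀ hu0, mul_one]
  linear_combination h7

end Ev95

open Ev95

variable {k Ω : Type u} [Field k] [Field Ω] [Algebra k Ω] {𝕂 : Type w} [Field 𝕂] [LinearOrder 𝕂]
  [IsStrictOrderedRing 𝕂] {v : OVal 𝕂 Ω} {n : ℕ}

/-- ROW H3: evaluation at `z = ψ`. -/
theorem ev [IsAlgClosed Ω] (h : Ctx0 k v n) (A : Subalgebra k Ω) (hA : ∀ a ∈ A, v.Ge 0 a)
    {z : Ω} (hz : VPos v z) {ψ : Ω} (hψ : ψ ∈ Hz v A) (hψ0 : VPos v ψ) {f : Ω}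
    (hf : f ∈ Hz v (Algebra.adjoin k ((A : Set Ω) ∪ {z}))) :
    ∃ f₀ ∈ Hz v A, ∃ g ∈ Hz v (Algebra.adjoin k ((A : Set Ω) ∪ {z})), f = f₀ + (z - ψ) * g := by
  set A' := Algebra.adjoin k ((A : Set Ω) ∪ {z}) with hA'def
  have hAA' : A ≤ A' := fun a ha => Algebra.subset_adjoin (Or.inl ha)
  have hzA' : z ∈ A' := Algebra.subset_adjoin (Or.inr rfl)
  have hA' : ∀ a ∈ A', v.Ge 0 a := by
    have : A' ≤ VO h := by
      refine Algebra.adjoin_le ?_
      rintro a (ha | ha)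
      · exact hA a ha
      · rw [Set.mem_singleton_iff.1 ha]; exact hz.ge
    exact fun a ha => this ha
  have hSH : Hz v A ≤ Hz v A' := hz_mono hAA'
  have hx : z - ψ ∈ Hz v A' := sub_mem (le_hz v A' hzA') (hSH hψ)
  have hx0 : VPos v (z - ψ) := hz.sub hψ0
  have hnn := hz_ge h hA'
  let T : Subalgebra k Ω :=
    { carrier := {f | ∃ f₀ ∈ Hz v A, ∃ g ∈ Hz v A', f = f₀ + (z - ψ) * g}
      mul_mem' := by
        rintro a b ⟨a₀, ha₀, g, hg, rfl⟩ ⟨b₀, hb₀, g', hg', rfl⟩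
        exact ⟨a₀ * b₀, mul_mem ha₀ hb₀, a₀ * g' + g * b₀ + g * (z - ψ) * g',
          add_mem (add_mem (mul_mem (hSH ha₀) hg') (mul_mem hg (hSH hb₀)))
            (mul_mem (mul_mem hg hx) hg'), by ring⟩
      add_mem' := by
        rintro a b ⟨a₀, ha₀, g, hg, rfl⟩ ⟨b₀, hb₀, g', hg', rfl⟩
        exact ⟨a₀ + b₀, add_mem ha₀ hb₀, g + g', add_mem hg hg', by ring⟩
      algebraMap_mem' := fun c => ⟨algebraMap k Ω c, (Hz v A).algebraMap_mem c, 0, zero_mem _, by
        ring⟩ }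
  have hTH : T ≤ Hz v A' := by
    rintro f ⟨f₀, hf₀, g, hg, rfl⟩
    exact add_mem (hSH hf₀) (mul_mem hx hg)
  have hT : HCl v T :=
    { inv := by
        rintro a ⟨a₀, ha₀, g, hg, ha⟩ h0 h1
        have haH : a ∈ Hz v A' := by rw [ha]; exact add_mem (hSH ha₀) (mul_mem hx hg)
        have ha₀' : a₀ ≠ 0 ∧ v a₀ = 0 := by
          rw [← not_vpos_iff (hnn _ (hSH ha₀))]
          intro h3
          refine (not_vpos_iff (hnn _ haH)).2 ⟨h0, h1⟩ ?_
          rw [ha]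
          exact h3.add (hx0.mul (hnn _ hg))
        have hi₀ := (hz_hcl v A).inv _ ha₀ ha₀'.1 ha₀'.2
        have hi := (hz_hcl v A').inv _ haH h0 h1
        refine ⟨a₀⁻¹, hi₀, -(g * a⁻¹ * a₀⁻¹), neg_mem (mul_mem (mul_mem hg hi) (hSH hi₀)), ?_⟩
        have h3 := ha₀'.1
        have h4 : a₀ - a = -((z - ψ) * g) := by linear_combination -ha
        have h5 : a⁻¹ = a₀⁻¹ + (a₀ - a) * (a⁻¹ * a₀⁻¹) := by field_simp; ring
        calc a⁻¹ = a₀⁻¹ + (a₀ - a) * (a⁻¹ * a₀⁻¹) := h5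
          _ = a₀⁻¹ + (z - ψ) * -(g * a⁻¹ * a₀⁻¹) := by rw [h4]; ring
      root := by
        intro P hP hc a hge h0 h1 h2
        have haH : a ∈ Hz v A' := (hz_hcl v A').root P hP (fun i => hTH (hc i)) a hge h0 h1 h2
        choose p hp g hg hpg using hc
        exact root_close h hAA' hA' hx hx0 hP p g hp hg hpg haH h0 h1 h2 }
  have hA'T : A' ≤ T := by
    refine Algebra.adjoin_le ?_
    rintro a (ha | ha)
    · exact ⟨a, le_hz v A ha, 0, zero_mem _, by ring⟩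
    · rw [Set.mem_singleton_iff.1 ha]
      exact ⟨ψ, hψ, 1, one_mem _, by ring⟩
  exact hz_le hA'T hT hf

/-- Taylor expansion at `z = ψ`. -/
theorem ev_pow [IsAlgClosed Ω] (h : Ctx0 k v n) (A : Subalgebra k Ω) (hA : ∀ a ∈ A, v.Ge 0 a)
    {z : Ω} (hz : VPos v z) {ψ : Ω} (hψ : ψ ∈ Hz v A) (hψ0 : VPos v ψ) (m : ℕ) {f : Ω}
    (hf : f ∈ Hz v (Algebra.adjoin k ((A : Set Ω) ∪ {z}))) :
    ∃ a : ℕ → Ω, (∀ j, a j ∈ Hz v A) ∧
      ∃ g ∈ Hz v (Algebra.adjoin k ((A : Set Ω) ∪ {z})),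
        f = ∑ j ∈ Finset.range m, a j * (z - ψ) ^ j + (z - ψ) ^ m * g := by
  induction m with
  | zero => exact ⟨fun _ => 0, fun _ => zero_mem _, f, hf, by simp⟩
  | succ m ih =>
    obtain ⟨a, ha, g, hg, hfg⟩ := ih
    obtain ⟨g₀, hg₀, g', hg', hgg⟩ := ev h A hA hz hψ hψ0 hg
    refine ⟨fun j => if j = m then g₀ else a j, fun j => ?_, g', hg', ?_⟩
    · dsimp only
      split_ifs
      · exact hg₀
      · exact ha j
    · rw [Finset.sum_range_succ]
      dsimp only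
      rw [if_pos rfl]
      have : ∑ j ∈ Finset.range m, (if j = m then g₀ else a j) * (z - ψ) ^ j =
          ∑ j ∈ Finset.range m, a j * (z - ψ) ^ j := by
        refine Finset.sum_congr rfl fun j hj => ?_
        rw [if_neg (Finset.mem_range.1 hj).ne]
      rw [this, hfg, hgg]
      ring

end Pool.Agent.ALLY
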